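import Pool.Agent.Helper42.DB.Goals2

set_option autoImplicit false

/-!
# Dispersing billiards (MP_48f005_an): packet GLUE
-/

namespace Pool.Agent.Helper42.DB.PkGLUE

open Set Filter Topology

variable {S : Sys}

lemma pos_eq {x : St S} {i : S.ι} {u : ℝ} (hi : x.i = i) (hu : x.u = u) : x.pos = S.g i u := by
  subst hi hu; rfl

lemma pos_mem_K {x : St S} (hx : x.Ok) {i : S.ι} (hi : x.i = i) : x.pos ∈ S.K i := by
  subst hi
  exact subset_convexHull ℝ _ ⟨x.u, Ioo_subset_Icc_self hx.1, rfl⟩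

/-- `MINI` without the last sum. -/
lemma mini' (hA : G_ARC S) (hM : G_MINI S) {n : ℕ} {w : ℕ → S.ι} {z : ℕ → St S} (hn : 0 < n)
    (hz : Cyl n w z) (p : ℕ → ℂ) (hp : ∀ k, 0 < k → k < n → p k ∈ S.K (w k)) :
    (∑ k ∈ Finset.range n, len (z k) (z (k + 1))) - dt (ee (z 0).th) (p 0 - (z 0).pos)
      - dt (ee (z n).bk) (p n - (z n).pos) ≤ ∑ k ∈ Finset.range n, ‖p (k + 1) - p k‖ := by
  have h := hM n w z hn hz p hp
  have hκ : 0 < S.κ := (hA (w 0)).1
  have h2 : 0 ≤ 2 * S.κ * ∑ k ∈ Finset.Ioo 0 n, Real.cos (z k).φ * ‖p k - (z k).pos‖ ^ 2 := by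
    refine mul_nonneg (by positivity) (Finset.sum_nonneg fun k hk => ?_)
    have hk' : k ≤ n := (Finset.mem_Ioo.1 hk).2.le
    exact mul_nonneg (hz.1.1 k hk').cos_pos.le (by positivity)
  linarith

theorem thm (S : Sys) : G_ARC S → G_MINI S → G_GLUEA S → G_GLUE S := by
  classical
  intro hA hMin hG i uc φc r ω ℓ m w hm hr hφc hI hω0 hω hLp
  have hex : ∀ (j : ℕ) (x y : ℝ), ∃ z : ℕ → St S, j < m → x ∈ Icc (uc - r) (uc + r) →
      y ∈ Icc (uc - r) (uc + r) → Cyl ℓ (w j) z ∧ (z 0).u = x ∧ (z ℓ).u = y := by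
    intro j x y
    by_cases h : j < m ∧ x ∈ Icc (uc - r) (uc + r) ∧ y ∈ Icc (uc - r) (uc + r)
    · obtain ⟨z, hz⟩ := (hLp j h.1).full x h.2.1 y h.2.2
      exact ⟨z, fun _ _ _ => hz⟩
    · exact ⟨fun _ => ⟨i, 0, 0⟩, fun h1 h2 h3 => absurd ⟨h1, h2, h3⟩ h⟩
  choose M hM using hex
  have huc : uc ∈ Icc (uc - r) (uc + r) := ⟨by linarith, by linarith⟩
  have hm0 : 0 < m := by omega
  have hℓ : 0 < ℓ := (hLp 0 hm0).pos
  -- basic facts
  have hi0 : ∀ j < m, ∀ x ∈ Icc (uc - r) (uc + r), ∀ y ∈ Icc (uc - r) (uc + r),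
      (M j x y 0).i = i := fun j hj x hx y hy => by
    rw [(hM j x y hj hx hy).1.2 0 (Nat.zero_le _), (hLp j hj).w0]
  have hil : ∀ j < m, ∀ x ∈ Icc (uc - r) (uc + r), ∀ y ∈ Icc (uc - r) (uc + r),
      (M j x y ℓ).i = i := fun j hj x hx y hy => by
    rw [(hM j x y hj hx hy).1.2 ℓ le_rfl, (hLp j hj).wl]
  have hp0 : ∀ j < m, ∀ x ∈ Icc (uc - r) (uc + r), ∀ y ∈ Icc (uc - r) (uc + r),
      (M j x y 0).pos = S.g i x := fun j hj x hx y hy =>
    pos_eq (hi0 j hj x hx y hy) (hM j x y hj hx hy).2.1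
  have hpl : ∀ j < m, ∀ x ∈ Icc (uc - r) (uc + r), ∀ y ∈ Icc (uc - r) (uc + r),
      (M j x y ℓ).pos = S.g i y := fun j hj x hx y hy =>
    pos_eq (hil j hj x hx y hy) (hM j x y hj hx hy).2.2
  have hth : ∀ j < m, ∀ x ∈ Icc (uc - r) (uc + r), ∀ y ∈ Icc (uc - r) (uc + r),
      (M j x y 0).th = x + (M j x y 0).φ := fun j hj x hx y hy => by
    rw [St.th, (hM j x y hj hx hy).2.1]
  have hbk : ∀ j < m, ∀ x ∈ Icc (uc - r) (uc + r), ∀ y ∈ Icc (uc - r) (uc + r),
      (M j x y ℓ).bk = y - (M j x y ℓ).φ := fun j hj x hx y hy => by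
    rw [St.bk, (hM j x y hj hx hy).2.2]
  obtain ⟨xs, hxs, hglue⟩ := hG i uc φc r ω m
    (fun j x y => ∑ k ∈ Finset.range ℓ, len (M j x y k) (M j x y (k + 1)))
    (fun j x y => (M j x y 0).φ) (fun j x y => (M j x y ℓ).φ) hm hr hφc hI hω0 hω
    (fun j hj x hx y hy => ⟨((hM j x y hj hx hy).1.1.1 0 (Nat.zero_le _)).2,
      ((hM j x y hj hx hy).1.1.1 ℓ le_rfl).2⟩)
    (by
      intro j hj x hx y hy x' hx' y' hy'
      have hC := (hM j x y hj hx hy).1
      have hC' := (hM j x' y' hj hx' hy').1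
      have h := mini' hA hMin hℓ hC (fun k => (M j x' y' k).pos)
        (fun k _ hk => pos_mem_K (hC'.1.1 k hk.le) (hC'.2 k hk.le))
      simp only [hp0 j hj x hx y hy, hpl j hj x hx y hy, hp0 j hj x' hx' y' hy',
        hpl j hj x' hx' y' hy', hth j hj x hx y hy, hbk j hj x hx y hy] at h
      exact h)
    (by
      intro j hj x hx y hy
      have hC := (hM j x y hj hx hy).1
      have hF := (hC.1.2 0 hℓ).length
      rw [hp0 j hj x hx y hy, hth j hj x hx y hy] at hF
      refine ⟨(M j x y 1).pos, ?_, hF.2, ?_⟩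
      · intro h0
        have := hF.1
        rw [zero_add, h0, sub_self, norm_zero] at this
        exact lt_irrefl _ this
      · intro x' hx'
        have hC' := (hM j x' y hj hx' hy).1
        have h := mini' hA hMin hℓ hC' (fun k => if k = 0 then S.g i x' else (M j x y k).pos)
          (fun k hk0 hk => by
            simp only [if_neg hk0.ne']
            exact pos_mem_K (hC.1.1 k hk.le) (hC.2 k hk.le))
        simp only [if_pos, if_neg hℓ.ne', hp0 j hj x' hx' y hy, hpl j hj x' hx' y hy,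
          hpl j hj x hx y hy, sub_self, dt_zero_right, sub_zero] at h
        refine h.trans ?_
        obtain ⟨l, rfl⟩ : ∃ l, ℓ = l + 1 := ⟨ℓ - 1, by omega⟩
        rw [Finset.sum_range_succ', Finset.sum_range_succ']
        simp only [zero_add, Nat.add_eq_zero_iff, one_ne_zero, and_false, if_false, if_true, len,
          hp0 j hj x hx y hy]
        linarith)
    (by
      intro j hj x hx y hy
      have hC := (hM j x y hj hx hy).1
      have hF := (hC.1.2 (ℓ - 1) (by omega)).rev.length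
      rw [show ℓ - 1 + 1 = ℓ by omega, St.rev_th, St.rev_pos, St.rev_pos, hpl j hj x hx y hy,
        hbk j hj x hx y hy] at hF
      refine ⟨(M j x y (ℓ - 1)).pos, ?_, hF.2, ?_⟩
      · intro h0
        have := hF.1
        rw [h0, sub_self, norm_zero] at this
        exact lt_irrefl _ this
      · intro y' hy'
        have hC' := (hM j x y' hj hx hy').1
        have h := mini' hA hMin hℓ hC' (fun k => if k = ℓ then S.g i y' else (M j x y k).pos)
          (fun k hk0 hk => by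
            simp only [if_neg hk.ne]
            exact pos_mem_K (hC.1.1 k hk.le) (hC.2 k hk.le))
        simp only [if_pos, if_neg hℓ.ne, hp0 j hj x hx y hy, hpl j hj x hx y' hy',
          hp0 j hj x hx y' hy', sub_self, dt_zero_right, sub_zero] at h
        refine h.trans ?_
        obtain ⟨l, rfl⟩ : ∃ l, ℓ = l + 1 := ⟨ℓ - 1, by omega⟩
        rw [Finset.sum_range_succ, Finset.sum_range_succ]
        have hsum : ∑ k ∈ Finset.range l, ‖(if k + 1 = l + 1 then S.g i y' else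
            (M j x y (k + 1)).pos) - (if k = l + 1 then S.g i y' else (M j x y k).pos)‖ =
            ∑ k ∈ Finset.range l, len (M j x y k) (M j x y (k + 1)) := by
          refine Finset.sum_congr rfl fun k hk => ?_
          have hk' := Finset.mem_range.1 hk
          rw [if_neg (by omega), if_neg (by omega)]
          rfl
        rw [hsum]
        have e1 : l + 1 - 1 = l := by omega
        have e2 : ¬ (l = l + 1) := by omega
        simp only [e1, if_neg e2, if_true, len, hpl j hj x hx y hy]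
        rw [norm_sub_rev (S.g i y') _, norm_sub_rev (S.g i y) _]
        linarith)
    (by
      intro j hj x hx
      have h := (hLp j hj).dirL (M j x uc) (hM j x uc hj hx huc).1
        (by rw [(hM j x uc hj hx huc).2.1]; exact hx) (hM j x uc hj hx huc).2.2
      rwa [hbk j hj x hx uc huc] at h)
    (by
      intro j hj y hy
      have h := (hLp j hj).dirR (M j uc y) (hM j uc y hj huc hy).1
        (hM j uc y hj huc hy).2.1 (by rw [(hM j uc y hj huc hy).2.2]; exact hy)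
      rwa [hth j hj uc huc y hy] at h)
  -- the periodic trajectory
  have hjm : ∀ j : ℕ, j % m < m := fun j => Nat.mod_lt _ hm0
  let L : ℕ → ℕ → St S := fun j => M (j % m) (xs (j % m)) (xs ((j + 1) % m))
  have hLC : ∀ j, Cyl ℓ (w (j % m)) (L j) := fun j =>
    (hM (j % m) _ _ (hjm j) (hxs _ (hjm j)) (hxs _ (hjm (j + 1)))).1
  have hLm : ∀ j, L (j + m) = L j := by
    intro j
    have e1 : (j + m) % m = j % m := Nat.add_mod_right _ _
    have e2 : (j + m + 1) % m = (j + 1) % m := by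
      rw [show j + m + 1 = j + 1 + m by ring]; exact Nat.add_mod_right _ _
    simp only [L, e1, e2]
  have hjoin : ∀ j, L j ℓ = L (j + 1) 0 := by
    intro j
    have h := hglue (j % m) (hjm j)
    have e1 : (j % m + 1) % m = (j + 1) % m := Nat.mod_add_mod _ _ _
    have e2 : (j % m + 2) % m = (j + 1 + 1) % m := Nat.mod_add_mod _ _ _
    rw [e1, e2] at h
    apply St.ext
    · exact (hil _ (hjm j) _ (hxs _ (hjm j)) _ (hxs _ (hjm (j + 1)))).trans
        (hi0 _ (hjm (j + 1)) _ (hxs _ (hjm (j + 1))) _ (hxs _ (hjm (j + 1 + 1)))).symm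
    · exact (hM (j % m) _ _ (hjm j) (hxs _ (hjm j)) (hxs _ (hjm (j + 1)))).2.2.trans
        (hM ((j + 1) % m) _ _ (hjm (j + 1)) (hxs _ (hjm (j + 1)))
          (hxs _ (hjm (j + 1 + 1)))).2.1.symm
    · exact h
  have hdiv : ∀ j s : ℕ, s < ℓ → (j * ℓ + s) / ℓ = j ∧ (j * ℓ + s) % ℓ = s := by
    intro j s hs
    constructor
    · rw [mul_comm, Nat.mul_add_div hℓ, Nat.div_eq_of_lt hs, add_zero]
    · rw [mul_comm, Nat.mul_add_mod, Nat.mod_eq_of_lt hs]
  refine ⟨fun k => L (k / ℓ) (k % ℓ), ?_, ?_, ?_⟩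
  · intro k
    obtain ⟨j, s, hs, rfl⟩ : ∃ j s, s < ℓ ∧ k = j * ℓ + s :=
      ⟨k / ℓ, k % ℓ, Nat.mod_lt _ hℓ, (Nat.div_add_mod' k ℓ).symm⟩
    have hF := (hLC j).1.2 s hs
    simp only [(hdiv j s hs).1, (hdiv j s hs).2]
    by_cases h : s + 1 < ℓ
    · rw [show j * ℓ + s + 1 = j * ℓ + (s + 1) by ring, (hdiv j (s + 1) h).1,
        (hdiv j (s + 1) h).2]
      exact hF
    · have e1 : s + 1 = ℓ := by omega
      have e2 : j * ℓ + s + 1 = (j + 1) * ℓ + 0 := by rw [← e1]; ring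
      rw [e2, (hdiv (j + 1) 0 hℓ).1, (hdiv (j + 1) 0 hℓ).2, ← hjoin j]
      rw [e1] at hF
      exact hF
  · intro k
    obtain ⟨j, s, hs, rfl⟩ : ∃ j s, s < ℓ ∧ k = j * ℓ + s :=
      ⟨k / ℓ, k % ℓ, Nat.mod_lt _ hℓ, (Nat.div_add_mod' k ℓ).symm⟩
    have e2 : j * ℓ + s + m * ℓ = (j + m) * ℓ + s := by ring
    simp only [e2, (hdiv (j + m) s hs).1, (hdiv (j + m) s hs).2, (hdiv j s hs).1,
      (hdiv j s hs).2, hLm]
  · intro j hj k hk
    have hjj : j % m = j := Nat.mod_eq_of_lt hj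
    have hC := (hLC j).2 k hk
    rw [hjj] at hC
    rcases hk.lt_or_eq with h | h
    · simp only [(hdiv j k h).1, (hdiv j k h).2]
      exact hC
    · have e2 : j * ℓ + k = (j + 1) * ℓ + 0 := by rw [h]; ring
      simp only [e2, (hdiv (j + 1) 0 hℓ).1, (hdiv (j + 1) 0 hℓ).2, ← hjoin j]
      rw [h] at hC ⊢
      exact hC

end Pool.Agent.Helper42.DB.PkGLUE
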